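import Pool.Agent.Helper26.GT.Defs
import Pool.Agent.Helper26.RR.Base

/-!
# Lowest coefficients
-/

set_option autoImplicit false

namespace Pool.Agent.Helper26.GT

open MvPolynomial

variable {K : Type*} [Field K] {n : ℕ}

/-- the translated polynomial `P(z + y)` -/
noncomputable def tr (z : Fin n → K) (P : MvPolynomial (Fin n) K) : MvPolynomial (Fin n) K :=
  bind₁ (fun i => X i + C (z i)) P

theorem eval_tr (z y : Fin n → K) (P : MvPolynomial (Fin n) K) :
    eval y (tr z P) = eval (fun i => y i + z i) P := by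
  have h : aeval y (bind₁ (fun i => X i + C (z i)) P) =
      aeval (fun i => aeval y (X i + C (z i) : MvPolynomial (Fin n) K)) P := aeval_bind₁ _ _ _
  simpa [tr, MvPolynomial.aeval_eq_eval] using h

theorem totalDegree_tr_le {z : Fin n → K} {P : MvPolynomial (Fin n) K} {b : ℕ}
    (hb : P.totalDegree ≤ b) : (tr z P).totalDegree ≤ b := by
  have h1 : tr z P = ∑ s ∈ P.support, C (coeff s P) * ∏ i, (X i + C (z i)) ^ s i := by
    rw [tr, bind₁, aeval_def, eval₂_eq']
    rfl
  rw [h1]
  refine totalDegree_finsetSum_le fun s hs => ?_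
  refine (totalDegree_mul _ _).trans ?_
  rw [totalDegree_C, zero_add]
  refine (totalDegree_finsetProd _ _).trans ?_
  have h2 : ∀ i, ((X i + C (z i) : MvPolynomial (Fin n) K) ^ s i).totalDegree ≤ s i := by
    intro i
    refine (totalDegree_pow _ _).trans ?_
    have h3 : (X i + C (z i) : MvPolynomial (Fin n) K).totalDegree ≤ 1 := by
      refine (totalDegree_add _ _).trans ?_
      rw [totalDegree_X, totalDegree_C]
      simp
    calc s i * _ ≤ s i * 1 := Nat.mul_le_mul_left _ h3
      _ = s i := mul_one _
  refine (Finset.sum_le_sum fun i _ => h2 i).trans ?_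
  have h4 : s.degree ≤ P.totalDegree := le_totalDegree hs
  rw [Finsupp.degree_eq_sum] at h4
  exact h4.trans hb

theorem tr_ne_zero {z : Fin n → K} {P : MvPolynomial (Fin n) K} (hP : P ≠ 0) : tr z P ≠ 0 := by
  intro h
  refine hP ?_
  have h1 : bind₁ (fun i => X i - C (z i)) (tr z P) = P := by
    rw [tr, bind₁_bind₁]
    have h2 : (fun i => bind₁ (fun i => X i - C (z i)) (X i + C (z i) : MvPolynomial (Fin n) K)) =
        X := by
      funext i
      rw [map_add, bind₁_X_right]
      simp
    rw [h2]
    simp
  rw [← h1, h, map_zero]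

/-- the value at a tuple `z + X * w'` -/
theorem coeff_low (P : MvPolynomial (Fin n) K) {z u : Fin n → K} {w : Fin n → Polynomial K}
    (hw0 : ∀ i, (w i).coeff 0 = z i) (hw1 : ∀ i, (w i).coeff 1 = u i) {j₀ : ℕ}
    (hj : ∀ t ∈ (tr z P).support, j₀ ≤ t.degree) :
    (∀ j < j₀, (aeval w P).coeff j = 0) ∧
    (aeval w P).coeff j₀ = eval u (homogeneousComponent j₀ (tr z P)) := by
  classical
  have h1 : aeval w P = aeval (fun i => (w i).divX * Polynomial.X) (tr z P) := by
    rw [tr, aeval_bind₁]
    congr 1
    refine congrArg _ ?_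
    funext i
    rw [map_add, aeval_X, aeval_C, ← hw0 i]
    exact (Polynomial.divX_mul_X_add (w i)).symm
  have h2 : aeval w P = ∑ t ∈ (tr z P).support, (Polynomial.C (coeff t (tr z P)) *
      ∏ i, (w i).divX ^ t i) * Polynomial.X ^ t.degree := by
    rw [h1, aeval_def, eval₂_eq']
    refine Finset.sum_congr rfl fun t _ => ?_
    have h3 : ∏ i, ((w i).divX * Polynomial.X) ^ t i =
        (∏ i, (w i).divX ^ t i) * Polynomial.X ^ t.degree := by
      simp only [mul_pow, Finset.prod_mul_distrib]
      rw [Finset.prod_pow_eq_pow_sum, Finsupp.degree_eq_sum]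
    rw [h3, mul_assoc]
    rfl
  constructor
  · intro j hjlt
    rw [h2, Polynomial.finsetSum_coeff]
    refine Finset.sum_eq_zero fun t ht => ?_
    rw [Polynomial.coeff_mul_X_pow', if_neg]
    have := hj t ht
    omega
  · rw [h2, Polynomial.finsetSum_coeff, homogeneousComponent_apply, map_sum, Finset.sum_filter]
    refine Finset.sum_congr rfl fun t ht => ?_
    rw [Polynomial.coeff_mul_X_pow']
    have h4 := hj t ht
    split_ifs with h5 h6 h6
    · rw [h6, Nat.sub_self, Polynomial.coeff_C_mul, eval_monomial,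
        Finsupp.prod_fintype _ _ fun _ => pow_zero _]
      congr 1
      rw [← Polynomial.constantCoeff_apply, map_prod]
      refine Finset.prod_congr rfl fun i _ => ?_
      rw [map_pow, Polynomial.constantCoeff_apply, Polynomial.coeff_divX, zero_add, hw1]
    · exact absurd (le_antisymm h5 h4) h6
    · exact absurd h6.le h5
    · rfl

/-- The lowest form of a weighted homogeneous polynomial at a point is invariant under translations
along the weighted Euler vector. -/
theorem euler (P : MvPolynomial (Fin n) K) {wt : Fin n → ℕ} {W : ℕ}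
    (hP : ∀ t ∈ P.support, ∑ i, t i * wt i = W) (z : Fin n → K) {j₀ : ℕ}
    (hj : ∀ t ∈ (tr z P).support, j₀ ≤ t.degree) (u : Fin n → K) (c : K) :
    eval (fun i => u i + c * (wt i * z i)) (homogeneousComponent j₀ (tr z P)) =
      eval u (homogeneousComponent j₀ (tr z P)) := by
  classical
  let q : Fin n → Polynomial K := fun i => Polynomial.C (z i) + Polynomial.C (u i) * Polynomial.X
  let l : Polynomial K := 1 + Polynomial.C c * Polynomial.X
  have hq := coeff_low P (z := z) (u := u) (w := q) (fun i => by simp [q]) (fun i => by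
    simp [q, Polynomial.coeff_C]) hj
  have hl0 : l.coeff 0 = 1 := by simp [l]
  have hlp : ∀ k : ℕ, (l ^ k).coeff 0 = 1 ∧ (l ^ k).coeff 1 = k * c := by
    intro k
    induction k with
    | zero => simp [Polynomial.coeff_one]
    | succ k ih =>
      rw [pow_succ]
      constructor
      · rw [Polynomial.mul_coeff_zero, ih.1, hl0, one_mul]
      · have h3 : l.coeff 1 = c := by simp [l, Polynomial.coeff_one]
        rw [Polynomial.mul_coeff_one, ih.1, ih.2, h3, hl0]
        push_cast
        ring
  have hy := coeff_low P (z := z) (u := fun i => u i + c * (wt i * z i))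
    (w := fun i => l ^ wt i * q i) (fun i => by
      rw [Polynomial.mul_coeff_zero, (hlp (wt i)).1]
      simp [q]) (fun i => by
      rw [Polynomial.mul_coeff_one, (hlp (wt i)).1, (hlp (wt i)).2]
      simp [q, Polynomial.coeff_C]
      ring) hj
  have h1 : aeval (fun i => l ^ wt i * q i) P = l ^ W * aeval q P := by
    rw [aeval_def, aeval_def, eval₂_eq', eval₂_eq', Finset.mul_sum]
    refine Finset.sum_congr rfl fun t ht => ?_
    have h2 : ∏ i, (l ^ wt i * q i) ^ t i = l ^ W * ∏ i, q i ^ t i := by
      simp only [mul_pow, Finset.prod_mul_distrib, ← pow_mul]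
      rw [Finset.prod_pow_eq_pow_sum, ← hP t ht]
      congr 2
      exact Finset.sum_congr rfl fun i _ => mul_comm _ _
    rw [h2]
    ring
  have h2 : Polynomial.X ^ j₀ ∣ aeval q P := by
    rw [Polynomial.X_pow_dvd_iff]
    exact hq.1
  obtain ⟨q', hq'⟩ := h2
  have h3 : ∀ p : Polynomial K, (Polynomial.X ^ j₀ * p).coeff j₀ = p.coeff 0 := by
    intro p
    have := Polynomial.coeff_X_pow_mul p j₀ 0
    rwa [zero_add] at this
  rw [← hy.2, ← hq.2, h1, hq', mul_left_comm, h3, h3, Polynomial.mul_coeff_zero, (hlp W).1,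
    one_mul]

end Pool.Agent.Helper26.GT
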