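import Pool.Agent.Helper26.GT.Low

/-!
# Restriction to the lines through the point `(0, …, 0, 1)`
-/

set_option autoImplicit false

namespace Pool.Agent.Helper26.GT

open MvPolynomial Pool.Agent.Helper26.RR

variable {K : Type*} [Field K] {m : ℕ}

/-- the line through `(0, …, 0, 1)` in the direction `v` -/
noncomputable def zv (v : Fin m → K) : Fin (m + 1) → Polynomial K :=
  Fin.snoc (fun k => Polynomial.C (v k) * Polynomial.X) 1

/-- the restriction to the cone over the line -/
noncomputable def La (v : Fin m → K) (P : MvPolynomial (Fin (m + 1)) K) :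
    Polynomial (Polynomial K) :=
  aeval (fun i => Polynomial.C (zv v i) * Polynomial.X) P

theorem prod_zv (v : Fin m → K) (s : Fin (m + 1) →₀ ℕ) :
    ∏ i, zv v i ^ s i = Polynomial.C (∏ k : Fin m, v k ^ s k.castSucc) *
      Polynomial.X ^ ot s := by
  rw [Fin.prod_univ_castSucc]
  simp only [zv, Fin.snoc_castSucc, Fin.snoc_last, one_pow, mul_one, mul_pow,
    Finset.prod_mul_distrib]
  rw [Finset.prod_pow_eq_pow_sum, map_prod]
  simp only [map_pow]
  rfl

theorem La_top (v : Fin m → K) {P : MvPolynomial (Fin (m + 1)) K} {n : ℕ}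
    (hn : P.totalDegree ≤ n) : (La v P).natDegree ≤ n ∧
      ∀ j, ((La v P).coeff n).coeff j =
        ∑ s ∈ P.support with s.degree = n ∧ ot s = j,
          coeff s P * ∏ k : Fin m, v k ^ s k.castSucc := by
  classical
  have h := aeval_top P (fun _ => 1) n (fun s hs => by
      simp only [mul_one]
      rw [← Finsupp.degree_eq_sum]
      exact (deg_le hs).trans hn) (fun i => Polynomial.C (zv v i) * Polynomial.X) (fun i =>
      (Polynomial.natDegree_C_mul_le _ _).trans Polynomial.natDegree_X_le)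
  refine ⟨h.1, fun j => ?_⟩
  rw [La, h.2, Polynomial.finsetSum_coeff]
  simp only [mul_one, ← Finsupp.degree_eq_sum, Polynomial.coeff_C_mul, Polynomial.coeff_X_one]
  rw [← Finset.filter_filter, Finset.sum_filter (s := P.support.filter _)]
  refine Finset.sum_congr rfl fun s _ => ?_
  rw [prod_zv, Polynomial.algebraMap_eq, Polynomial.coeff_C_mul, Polynomial.coeff_C_mul,
    Polynomial.coeff_X_pow]
  split_ifs with h1 h2 h2
  · rw [mul_one]
  · exact absurd h1.symm h2
  · exact absurd h2.symm h1
  · rw [mul_zero, mul_zero]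

theorem ot_single_last (n : ℕ) : ot (Finsupp.single (Fin.last m) n) = 0 := by
  unfold ot
  refine Finset.sum_eq_zero fun i _ => ?_
  rw [Finsupp.single_eq_of_ne (Fin.castSucc_ne_last i)]

theorem ot_add (s t : Fin (m + 1) →₀ ℕ) : ot (s + t) = ot s + ot t := by
  unfold ot
  rw [← Finset.sum_add_distrib]
  rfl

theorem eq_single_of_ot {s : Fin (m + 1) →₀ ℕ} (h : ot s = 0) :
    s = Finsupp.single (Fin.last m) s.degree := by
  classical
  have h1 : ∀ i : Fin m, s i.castSucc = 0 := fun i =>
    (Finset.sum_eq_zero_iff.1 h) i (Finset.mem_univ i)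
  have h2 : s.degree = s (Fin.last m) := by rw [degree_eq, h, zero_add]
  rw [h2]
  ext i
  refine Fin.lastCases ?_ (fun j => ?_) i
  · rw [Finsupp.single_eq_same]
  · rw [h1 j, Finsupp.single_eq_of_ne (Fin.castSucc_ne_last j)]

theorem La_zero (v : Fin m → K) {P : MvPolynomial (Fin (m + 1)) K} {n : ℕ}
    (hn : P.totalDegree ≤ n) :
    ((La v P).coeff n).coeff 0 = coeff (Finsupp.single (Fin.last m) n) P := by
  classical
  rw [(La_top v hn).2 0]
  have h1 : ∀ s : Fin (m + 1) →₀ ℕ, s.degree = n ∧ ot s = 0 →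
      s = Finsupp.single (Fin.last m) n := fun s hs => by
    rw [← hs.1]
    exact eq_single_of_ot hs.2
  have h2 : (∏ k : Fin m, v k ^ (Finsupp.single (Fin.last m) n : Fin (m + 1) →₀ ℕ) k.castSucc) =
      1 := by
    refine Finset.prod_eq_one fun k _ => ?_
    rw [Finsupp.single_eq_of_ne (Fin.castSucc_ne_last k), pow_zero]
  by_cases hc : coeff (Finsupp.single (Fin.last m) n) P = 0
  · rw [hc]
    refine Finset.sum_eq_zero fun s hs => ?_
    rw [Finset.mem_filter] at hs
    exact absurd (h1 s hs.2 ▸ hc) (mem_support_iff.1 hs.1)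
  · rw [Finset.sum_eq_single (Finsupp.single (Fin.last m) n), h2, mul_one]
    · intro s hs hne
      rw [Finset.mem_filter] at hs
      exact absurd (h1 s hs.2) hne
    · intro h3
      refine absurd ?_ h3
      rw [Finset.mem_filter]
      exact ⟨mem_support_iff.2 hc, Finsupp.degree_single _ _, ot_single_last n⟩

/-- the exponent of `x_k * x_N ^ (n - 1)` -/
noncomputable def ex (n : ℕ) (k : Fin m) : Fin (m + 1) →₀ ℕ :=
  Finsupp.single k.castSucc 1 + Finsupp.single (Fin.last m) (n - 1)

theorem ex_apply (n : ℕ) (k j : Fin m) : ex n k j.castSucc = if j = k then 1 else 0 := by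
  classical
  rw [ex, Finsupp.add_apply, Finsupp.single_apply, Finsupp.single_eq_of_ne
    (Fin.castSucc_ne_last j), add_zero]
  simp only [Fin.castSucc_inj, eq_comm]

theorem ex_inj (n : ℕ) : Function.Injective (ex n : Fin m → Fin (m + 1) →₀ ℕ) := by
  intro k l h
  have h1 := congrArg (fun s : Fin (m + 1) →₀ ℕ => s k.castSucc) h
  simp only [ex_apply] at h1
  by_contra hne
  simp [hne] at h1

theorem ot_ex (n : ℕ) (k : Fin m) : ot (ex n k) = 1 := by
  unfold ot
  simp only [ex_apply]
  simp

theorem degree_ex {n : ℕ} (hn : 1 ≤ n) (k : Fin m) : (ex n k).degree = n := by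
  rw [ex, map_add, Finsupp.degree_single, Finsupp.degree_single]
  omega

theorem eq_ex_of_ot {s : Fin (m + 1) →₀ ℕ} (h : ot s = 1) : ∃ k, s = ex s.degree k := by
  classical
  have h0 : ∃ k : Fin m, s k.castSucc ≠ 0 := by
    by_contra hcon
    push Not at hcon
    have : ot s = 0 := Finset.sum_eq_zero fun i _ => hcon i
    omega
  obtain ⟨k, hk⟩ := h0
  have h1 : s k.castSucc + ∑ i ∈ Finset.univ.erase k, s i.castSucc = 1 := by
    rw [Finset.add_sum_erase _ (fun i : Fin m => s i.castSucc) (Finset.mem_univ k)]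
    exact h
  have h2 : ∑ i ∈ Finset.univ.erase k, s i.castSucc = 0 := by omega
  have h3 : s k.castSucc = 1 := by omega
  have h4 := Finset.sum_eq_zero_iff.1 h2
  refine ⟨k, ?_⟩
  have h5 : s.degree = 1 + s (Fin.last m) := by rw [degree_eq, h]
  ext i
  refine Fin.lastCases ?_ (fun j => ?_) i
  · rw [ex, Finsupp.add_apply, Finsupp.single_eq_same,
      Finsupp.single_eq_of_ne (Fin.castSucc_ne_last k).symm, h5]
    omega
  · rw [ex_apply]
    split_ifs with h6
    · rw [h6, h3]
    · exact h4 j (Finset.mem_erase.2 ⟨h6, Finset.mem_univ j⟩)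

theorem La_one (v : Fin m → K) {P : MvPolynomial (Fin (m + 1)) K} {n : ℕ} (h1n : 1 ≤ n)
    (hn : P.totalDegree ≤ n) :
    ((La v P).coeff n).coeff 1 = ∑ k, coeff (ex n k) P * v k := by
  classical
  rw [(La_top v hn).2 1]
  have h2 : ∀ k : Fin m, (∏ j : Fin m, v j ^ ex n k j.castSucc) = v k := by
    intro k
    simp only [ex_apply]
    simp
  have h3 : ∑ k, coeff (ex n k) P * v k =
      ∑ s ∈ Finset.univ.image (ex n : Fin m → Fin (m + 1) →₀ ℕ),
        coeff s P * ∏ k : Fin m, v k ^ s k.castSucc := by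
    rw [Finset.sum_image fun k _ l _ h => ex_inj n h]
    exact Finset.sum_congr rfl fun k _ => by rw [h2]
  rw [h3]
  refine Finset.sum_subset (fun s hs => ?_) fun s hs hs' => ?_
  · rw [Finset.mem_filter] at hs
    obtain ⟨k, hk⟩ := eq_ex_of_ot hs.2.2
    rw [Finset.mem_image]
    exact ⟨k, Finset.mem_univ k, by rw [hk, hs.2.1]⟩
  · rw [Finset.mem_image] at hs
    obtain ⟨k, -, rfl⟩ := hs
    rw [Finset.mem_filter] at hs'
    have h4 : ex n k ∉ P.support := fun h => hs' ⟨h, degree_ex h1n k, ot_ex n k⟩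
    rw [notMem_support_iff.1 h4, zero_mul]

/-- the lowest form at `(0, …, 0, 1)` of the form of highest degree, as a function -/
noncomputable def tb (F : MvPolynomial (Fin (m + 1)) K) (v : Fin m → K) : K :=
  ∑ s ∈ F.support with s.degree = F.totalDegree ∧ ot s = bb F,
    coeff s F * ∏ k : Fin m, v k ^ s k.castSucc

theorem tb_eq (F : MvPolynomial (Fin (m + 1)) K) (v : Fin m → K) :
    ((La v F).coeff F.totalDegree).coeff (bb F) = tb F v := (La_top v le_rfl).2 _

theorem tb_zero {F : MvPolynomial (Fin (m + 1)) K} (hb : bb F ≠ 0) : tb F 0 = 0 := by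
  refine Finset.sum_eq_zero fun s hs => ?_
  rw [Finset.mem_filter] at hs
  have h1 : ∃ k : Fin m, s k.castSucc ≠ 0 := by
    by_contra hcon
    push Not at hcon
    exact hb (hs.2.2.symm.trans (Finset.sum_eq_zero fun i _ => hcon i))
  obtain ⟨k, hk⟩ := h1
  rw [Finset.prod_eq_zero (Finset.mem_univ k), mul_zero]
  rw [Pi.zero_apply, zero_pow hk]

theorem tb_ne_zero [Infinite K] {F : MvPolynomial (Fin (m + 1)) K} (hF : F ≠ 0) :
    ∃ v, tb F v ≠ 0 := by
  classical
  by_contra hcon
  push Not at hcon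
  let ρ : (Fin (m + 1) →₀ ℕ) → (Fin m →₀ ℕ) := fun s =>
    Finsupp.equivFunOnFinite.symm fun k => s k.castSucc
  let S := F.support.filter fun s => s.degree = F.totalDegree ∧ ot s = bb F
  let L : MvPolynomial (Fin m) K := ∑ s ∈ S, monomial (ρ s) (coeff s F)
  have hL : L = 0 := by
    refine MvPolynomial.funext fun v => ?_
    rw [map_zero, map_sum, ← hcon v, tb]
    refine Finset.sum_congr rfl fun s _ => ?_
    rw [eval_monomial, Finsupp.prod_fintype _ _ fun _ => pow_zero _]
    rfl
  obtain ⟨s₀, hs₀, hd, hb⟩ := bb_spec hF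
  have h1 : coeff (ρ s₀) L = coeff s₀ F := by
    rw [coeff_sum, Finset.sum_eq_single s₀]
    · rw [coeff_monomial, if_pos rfl]
    · intro s hs hne
      rw [coeff_monomial, if_neg]
      intro h2
      refine hne ?_
      have h3 : ∀ k : Fin m, s k.castSucc = s₀ k.castSucc := fun k => by
        have := DFunLike.congr_fun h2 k
        exact this
      rw [Finset.mem_filter] at hs
      have h4 : s (Fin.last m) = s₀ (Fin.last m) := by
        have h5 := degree_eq s
        have h6 := degree_eq s₀
        rw [hs.2.1, hs.2.2] at h5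
        rw [hd, hb] at h6
        omega
      ext i
      refine Fin.lastCases h4 (fun j => h3 j) i
    · intro h2
      exact absurd (Finset.mem_filter.2 ⟨hs₀, hd, hb⟩) h2
  rw [hL, coeff_zero] at h1
  exact mem_support_iff.1 hs₀ h1.symm

end Pool.Agent.Helper26.GT
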