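import Pool.Agent.Helper26.GT.Main

/-!
# Termination for polynomial maps with a dominant last component
-/

set_option autoImplicit false

namespace Pool.Agent.Helper26.GT

open MvPolynomial Pool.Agent.Helper26.RR

variable {K : Type*} [Field K] {m : ℕ}

/-- the composition -/
noncomputable def cmp (Φ : Fin (m + 1) → MvPolynomial (Fin (m + 1)) K)
    (F : MvPolynomial (Fin (m + 1)) K) : MvPolynomial (Fin (m + 1)) K := bind₁ Φ F

theorem coeff_of_bb_zero {F : MvPolynomial (Fin (m + 1)) K} (hF : F ≠ 0)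
    (hb : bb F = 0) : coeff (Finsupp.single (Fin.last m) F.totalDegree) F ≠ 0 := by
  obtain ⟨s, hs, hsD, hsb⟩ := bb_spec hF
  rw [hb] at hsb
  rw [← hsD, ← eq_single_of_ot hsb]
  exact mem_support_iff.1 hs

section

variable [CharZero K] {d e : ℕ} (he : 1 ≤ e) (hed : e < d)
  {Φ : Fin (m + 1) → MvPolynomial (Fin (m + 1)) K} (hΦ : Dom d e Φ)

include he hed hΦ

theorem cmp_ne {F : MvPolynomial (Fin (m + 1)) K} (hF : F ≠ 0) (k : ℕ) : (cmp Φ)^[k] F ≠ 0 := by
  induction k with
  | zero => exact hF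
  | succ k ih =>
    rw [Function.iterate_succ_apply']
    exact (step he hed hΦ ih).1

theorem cmp_bb_le {F : MvPolynomial (Fin (m + 1)) K} (hF : F ≠ 0) (k : ℕ) :
    bb ((cmp Φ)^[k] F) ≤ bb F := by
  induction k with
  | zero => exact le_rfl
  | succ k ih =>
    rw [Function.iterate_succ_apply']
    exact (step he hed hΦ (cmp_ne he hed hΦ hF k)).2.1.trans ih

/-- If the order is constant for `n` steps, the lowest form is constant on the span of the first
`n` vectors `A ^ j c`. -/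
theorem tb_const (n : ℕ) : ∀ F : MvPolynomial (Fin (m + 1)) K, F ≠ 0 →
    (∀ k ≤ n, bb ((cmp Φ)^[k] F) = bb F) → ∀ t : ℕ → K,
      tb F (∑ j ∈ Finset.range n, t j • ((cA e Φ) ^ j).mulVec (cc e Φ)) = tb F 0 := by
  induction n with
  | zero =>
    intro F _ _ t
    rw [Finset.range_zero, Finset.sum_empty]
  | succ n ih =>
    intro F hF h t
    have h1 := step he hed hΦ hF
    have h2 : bb (bind₁ Φ F) = bb F := h 1 (by omega)
    obtain ⟨hinv, l, hl, hnext⟩ := h1.2.2 h2
    have h3 := ih (bind₁ Φ F) h1.1 (fun k hk => by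
      rw [h2]
      exact h (k + 1) (by omega)) (fun j => t (j + 1))
    rw [hnext, hnext, Matrix.mulVec_zero] at h3
    have h4 := mul_left_cancel₀ hl h3
    rw [← h4, Finset.sum_range_succ', pow_zero, Matrix.one_mulVec]
    have h5 : (cA e Φ).mulVec (∑ j ∈ Finset.range n,
        t (j + 1) • ((cA e Φ) ^ j).mulVec (cc e Φ)) =
        ∑ j ∈ Finset.range n, t (j + 1) • ((cA e Φ) ^ (j + 1)).mulVec (cc e Φ) := by
      rw [Matrix.mulVec_sum]
      refine Finset.sum_congr rfl fun j _ => ?_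
      rw [Matrix.mulVec_smul, Matrix.mulVec_mulVec, pow_succ']
    rw [h5]
    exact hinv _ (t 0)

theorem drop {F : MvPolynomial (Fin (m + 1)) K} (hF : F ≠ 0) (hb : bb F ≠ 0) :
    ∃ k, bb ((cmp Φ)^[k] F) < bb F := by
  classical
  by_contra hcon
  push Not at hcon
  have heq : ∀ k, bb ((cmp Φ)^[k] F) = bb F := fun k =>
    le_antisymm (cmp_bb_le he hed hΦ hF k) (hcon k)
  obtain ⟨v, hv⟩ := tb_ne_zero hF
  refine hv ?_
  have hspan : (⊤ : Submodule K (Fin m → K)) ≤ Submodule.span K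
      (Set.range fun j : Fin m => (cA e Φ ^ (j : ℕ)).mulVec (cc e Φ)) := by
    rw [hΦ.cyc.span_eq_top_of_card_eq_finrank' (by simp)]
  have hmem := hspan (Submodule.mem_top (x := v))
  rw [Submodule.mem_span_range_iff_exists_fun] at hmem
  obtain ⟨c, hc⟩ := hmem
  have h1 := tb_const he hed hΦ m F hF (fun k _ => heq k)
    (fun j => if h : j < m then c ⟨j, h⟩ else 0)
  rw [Finset.sum_range] at h1
  have h2 : (∑ i : Fin m, (if h : (i : ℕ) < m then c ⟨i, h⟩ else 0) •
      ((cA e Φ) ^ (i : ℕ)).mulVec (cc e Φ)) = v := by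
    rw [← hc]
    refine Finset.sum_congr rfl fun i _ => ?_
    rw [dif_pos i.2]
  rw [h2] at h1
  rw [h1]
  exact tb_zero hb

theorem term_aux (n : ℕ) :
    ∀ F : MvPolynomial (Fin (m + 1)) K, F ≠ 0 → bb F ≤ n → ∃ k, bb ((cmp Φ)^[k] F) = 0 := by
  induction n with
  | zero =>
    intro F _ h
    exact ⟨0, Nat.le_zero.1 h⟩
  | succ n ih =>
    intro F hF h
    by_cases hb : bb F = 0
    · exact ⟨0, hb⟩
    · obtain ⟨k, hk⟩ := drop he hed hΦ hF hb
      obtain ⟨l, hl⟩ := ih _ (cmp_ne he hed hΦ hF k) (by omega)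
      refine ⟨l + k, ?_⟩
      rw [Function.iterate_add_apply]
      exact hl

/-- **Termination.** For every polynomial `F ≠ 0` some composition `F ∘ Φᵏ` contains a pure power
of the last variable in its form of highest degree. -/
theorem term {F : MvPolynomial (Fin (m + 1)) K} (hF : F ≠ 0) :
    ∃ k : ℕ, coeff (Finsupp.single (Fin.last m) (((fun G => bind₁ Φ G)^[k] F).totalDegree))
      ((fun G => bind₁ Φ G)^[k] F) ≠ 0 := by
  obtain ⟨k, hk⟩ := term_aux he hed hΦ (bb F) F hF le_rfl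
  exact ⟨k, coeff_of_bb_zero (cmp_ne he hed hΦ hF k) hk⟩

end

end Pool.Agent.Helper26.GT
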