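import Mathlib

/-!
# Polynomial maps with a dominant last component: definitions
-/

set_option autoImplicit false

namespace Pool.Agent.Helper26.GT

open MvPolynomial

variable {K : Type*} [Field K] {m : ℕ}

/-- the bounds of the degrees of the components -/
def wd (d e : ℕ) {m : ℕ} (i : Fin (m + 1)) : ℕ := if i = Fin.last m then d else e

/-- the coefficient of `x_N ^ d` in the last component -/
noncomputable def ca (d : ℕ) (Φ : Fin (m + 1) → MvPolynomial (Fin (m + 1)) K) : K :=
  coeff (Finsupp.single (Fin.last m) d) (Φ (Fin.last m))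

/-- the coefficients of `x_k * x_N ^ (d - 1)` in the last component -/
noncomputable def cg (d : ℕ) (Φ : Fin (m + 1) → MvPolynomial (Fin (m + 1)) K) (k : Fin m) : K :=
  coeff (Finsupp.single k.castSucc 1 + Finsupp.single (Fin.last m) (d - 1)) (Φ (Fin.last m))

/-- the coefficients of `x_N ^ e` in the other components -/
noncomputable def cc (e : ℕ) (Φ : Fin (m + 1) → MvPolynomial (Fin (m + 1)) K) (i : Fin m) : K :=
  coeff (Finsupp.single (Fin.last m) e) (Φ i.castSucc)

/-- the coefficients of `x_k * x_N ^ (e - 1)` in the other components -/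
noncomputable def cA (e : ℕ) (Φ : Fin (m + 1) → MvPolynomial (Fin (m + 1)) K) :
    Matrix (Fin m) (Fin m) K :=
  Matrix.of fun i k =>
    coeff (Finsupp.single k.castSucc 1 + Finsupp.single (Fin.last m) (e - 1)) (Φ i.castSucc)

/-- The last component has degree `d`, the others have degree at most `e`; the Jacobian matrix of
the forms of degree `d`, `e` at the point `(0, …, 0, 1)` is invertible, and the values of the forms
of degree `e` are a cyclic vector. -/
structure Dom (d e : ℕ) (Φ : Fin (m + 1) → MvPolynomial (Fin (m + 1)) K) : Prop where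
  deg : ∀ i, (Φ i).totalDegree ≤ wd d e i
  top : ca d Φ ≠ 0
  jac : (Matrix.fromBlocks (cA e Φ) (Matrix.replicateCol Unit ((e : K) • cc e Φ))
    (Matrix.replicateRow Unit (cg d Φ)) (Matrix.of fun _ _ : Unit => (d : K) * ca d Φ)).det ≠ 0
  cyc : LinearIndependent K fun j : Fin m => (cA e Φ ^ (j : ℕ)).mulVec (cc e Φ)

end Pool.Agent.Helper26.GT
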