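import Pool.Agent.Helper26.GT.Step

/-!
# The order does not increase
-/

set_option autoImplicit false

namespace Pool.Agent.Helper26.GT

open MvPolynomial Pool.Agent.Helper26.RR

variable {K : Type*} [Field K] {m : ℕ}

theorem exists_low {n : ℕ} {R : MvPolynomial (Fin n) K} (hR : R ≠ 0) :
    ∃ j₀, (∃ t ∈ R.support, t.degree = j₀) ∧ ∀ t ∈ R.support, j₀ ≤ t.degree := by
  obtain ⟨t, ht, h⟩ := Finset.exists_min_image R.support (fun t => t.degree)
    (support_nonempty.2 hR)
  exact ⟨t.degree, ⟨t, ht, rfl⟩, h⟩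

theorem exists_uu {d e : ℕ} {Φ : Fin (m + 1) → MvPolynomial (Fin (m + 1)) K} (hΦ : Dom d e Φ)
    (y : Fin (m + 1) → K) :
    ∃ (v : Fin m → K) (t : K), y = fun i => uu d e Φ v i + t * (wd d e i * z0 d e Φ i) := by
  classical
  set M := Matrix.fromBlocks (cA e Φ) (Matrix.replicateCol Unit ((e : K) • cc e Φ))
    (Matrix.replicateRow Unit (cg d Φ)) (Matrix.of fun _ _ : Unit => (d : K) * ca d Φ) with hM
  have hdet : IsUnit M.det := isUnit_iff_ne_zero.2 hΦ.jac
  let y' : Fin m ⊕ Unit → K := Sum.elim (fun k => y k.castSucc) (fun _ => y (Fin.last m))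
  let x := M⁻¹.mulVec y'
  have hx : M.mulVec x = y' := by
    rw [Matrix.mulVec_mulVec, Matrix.mul_nonsing_inv _ hdet, Matrix.one_mulVec]
  refine ⟨fun k => x (Sum.inl k), x (Sum.inr ()), ?_⟩
  funext i
  refine Fin.lastCases ?_ (fun j => ?_) i
  · have h1 := congrFun hx (Sum.inr ())
    simp only [hM, Matrix.mulVec, dotProduct, Fintype.sum_sum_type, Matrix.fromBlocks_apply₂₁,
      Matrix.fromBlocks_apply₂₂, Matrix.replicateRow_apply, Matrix.of_apply, Finset.univ_unique,
      Finset.sum_singleton, y', Sum.elim_inr] at h1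
    rw [uu, Fin.snoc_last, z0, Fin.snoc_last, wd, if_pos rfl, ← h1]
    ring
  · have h1 := congrFun hx (Sum.inl j)
    simp only [hM, Matrix.mulVec, dotProduct, Fintype.sum_sum_type, Matrix.fromBlocks_apply₁₁,
      Matrix.fromBlocks_apply₁₂, Matrix.replicateCol_apply, Finset.univ_unique,
      Finset.sum_singleton, y', Sum.elim_inl, Pi.smul_apply, smul_eq_mul] at h1
    rw [uu, Fin.snoc_castSucc, z0, Fin.snoc_castSucc, wd, if_neg (Fin.castSucc_ne_last j), ← h1]
    simp only [Matrix.mulVec, dotProduct]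
    ring

theorem totalDegree_bind {d e : ℕ} {Φ : Fin (m + 1) → MvPolynomial (Fin (m + 1)) K}
    (hΦ : Dom d e Φ) (F : MvPolynomial (Fin (m + 1)) K) :
    (bind₁ Φ F).totalDegree ≤ mw d e F :=
  totalDegree_bind_le hΦ.deg fun _ hs => le_mw d e hs

theorem of_coeff_ne {G : MvPolynomial (Fin (m + 1)) K} {W j : ℕ} {v : Fin m → K}
    (hG : G.totalDegree ≤ W) (h : ((La v G).coeff W).coeff j ≠ 0) :
    G ≠ 0 ∧ G.totalDegree = W ∧ bb G ≤ j := by
  rw [(La_top v hG).2 j] at h
  obtain ⟨s, hs, -⟩ := Finset.exists_ne_zero_of_sum_ne_zero h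
  rw [Finset.mem_filter] at hs
  have h1 : G.totalDegree = W := le_antisymm hG (hs.2.1 ▸ deg_le hs.1)
  refine ⟨?_, h1, hs.2.2 ▸ bb_le hs.1 (hs.2.1.trans h1.symm)⟩
  rintro rfl
  simp at hs

/-- The step. -/
theorem step [CharZero K] {d e : ℕ} (he : 1 ≤ e) (hed : e < d)
    {Φ : Fin (m + 1) → MvPolynomial (Fin (m + 1)) K} (hΦ : Dom d e Φ)
    {F : MvPolynomial (Fin (m + 1)) K} (hF : F ≠ 0) :
    bind₁ Φ F ≠ 0 ∧ bb (bind₁ Φ F) ≤ bb F ∧ (bb (bind₁ Φ F) = bb F →
      (∀ (v : Fin m → K) (t : K), tb F (fun k => v k + t * cc e Φ k) = tb F v) ∧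
      ∃ l : K, l ≠ 0 ∧ ∀ v, tb (bind₁ Φ F) v = l * tb F ((cA e Φ).mulVec v)) := by
  classical
  set R := tr (z0 d e Φ) (Q1 d e F) with hR
  have hR0 : R ≠ 0 := tr_ne_zero (Q1_ne_zero hed hF)
  have hQd : (Q1 d e F).totalDegree ≤ bb F := by
    refine Finset.sup_le fun t ht => ?_
    exact degree_Q1 ht
  have hRd : R.totalDegree ≤ bb F := totalDegree_tr_le hQd
  obtain ⟨j₀, ⟨t₀, ht₀, htj⟩, hlow⟩ := exists_low hR0
  have hj₀ : j₀ ≤ bb F := by
    rw [← htj]
    exact (le_totalDegree ht₀).trans hRd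
  set P := homogeneousComponent j₀ R with hP
  have hP0 : P ≠ 0 := by
    intro h
    have h1 : coeff t₀ P = coeff t₀ R := by
      rw [hP, coeff_homogeneousComponent, if_pos htj]
    rw [h, coeff_zero] at h1
    exact mem_support_iff.1 ht₀ h1.symm
  have hlowc := fun v => coeff_low (Q1 d e F) (z := z0 d e Φ) (u := uu d e Φ v)
    (w := fun i => (La v (Φ i)).coeff (wd d e i)) (coeff_zero_eq hΦ v) (coeff_one_eq he hed hΦ v)
    hlow
  have hE : ∀ (y : Fin (m + 1) → K) (c : K),
      eval (fun i => y i + c * (wd d e i * z0 d e Φ i)) P = eval y P := fun y c =>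
    euler (Q1 d e F) (wt := wd d e) (fun t ht => wt_Q1 ht) (z0 d e Φ) hlow y c
  -- the coefficient of the composition
  have hcoef : ∀ v, ((La v (bind₁ Φ F)).coeff (mw d e F)).coeff j₀ =
      ca d Φ ^ (F.totalDegree - bb F) * eval (uu d e Φ v) P := by
    intro v
    rw [comp_top hed hΦ F v]
    have h2 : Polynomial.X ^ j₀ ∣ aeval (fun i => (La v (Φ i)).coeff (wd d e i)) (Q1 d e F) := by
      rw [Polynomial.X_pow_dvd_iff]
      exact (hlowc v).1
    obtain ⟨q', hq'⟩ := h2
    have h3 : ∀ p : Polynomial K, (Polynomial.X ^ j₀ * p).coeff j₀ = p.coeff 0 := by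
      intro p
      have := Polynomial.coeff_X_pow_mul p j₀ 0
      rwa [zero_add] at this
    have h4 : (((La v (Φ (Fin.last m))).coeff d) ^ (F.totalDegree - bb F)).coeff 0 =
        ca d Φ ^ (F.totalDegree - bb F) := by
      rw [← Polynomial.constantCoeff_apply, map_pow, Polynomial.constantCoeff_apply]
      have h5 := coeff_zero_eq hΦ v (Fin.last m)
      rw [wd, if_pos rfl, z0, Fin.snoc_last] at h5
      rw [h5]
    rw [← (hlowc v).2, hq', mul_left_comm, h3, h3, Polynomial.mul_coeff_zero, h4]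
  -- the value at some direction
  obtain ⟨v₀, hv₀⟩ : ∃ v, eval (uu d e Φ v) P ≠ 0 := by
    obtain ⟨y, hy⟩ : ∃ y, eval y P ≠ 0 := by
      by_contra hcon
      push Not at hcon
      exact hP0 (MvPolynomial.funext fun y => by rw [hcon y, map_zero])
    obtain ⟨v, t, hvt⟩ := exists_uu hΦ y
    refine ⟨v, ?_⟩
    rw [← hE (uu d e Φ v) t, ← hvt]
    exact hy
  have hne : ((La v₀ (bind₁ Φ F)).coeff (mw d e F)).coeff j₀ ≠ 0 := by
    rw [hcoef]
    exact mul_ne_zero (pow_ne_zero _ hΦ.top) hv₀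
  obtain ⟨hG0, hGW, hGb⟩ := of_coeff_ne (totalDegree_bind hΦ F) hne
  refine ⟨hG0, hGb.trans hj₀, fun heq => ?_⟩
  have hjb : j₀ = bb F := le_antisymm hj₀ (heq ▸ hGb)
  -- the lowest form is the highest form
  have hPQ : ∀ y : Fin (m + 1) → K, eval y P =
      ∑ t ∈ (Q1 d e F).support with t.degree = bb F, coeff t (Q1 d e F) * ∏ i, y i ^ t i := by
    intro y
    let w : Fin (m + 1) → Polynomial K := fun i =>
      Polynomial.C (z0 d e Φ i) + Polynomial.C (y i) * Polynomial.X
    have h1 := coeff_low (Q1 d e F) (z := z0 d e Φ) (u := y) (w := w)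
      (fun i => by simp [w]) (fun i => by simp [w, Polynomial.coeff_C]) hlow
    have h2 := aeval_top (Q1 d e F) (fun _ => 1) (bb F) (fun s hs => by
      rw [← degree_eq_sum']
      exact degree_Q1 hs) w (fun i => by
      refine (Polynomial.natDegree_add_le _ _).trans ?_
      rw [Polynomial.natDegree_C]
      refine max_le (Nat.zero_le _) ((Polynomial.natDegree_C_mul_le _ _).trans
        Polynomial.natDegree_X_le))
    have h3 : ∀ i, (w i).coeff 1 = y i := fun i => by simp [w, Polynomial.coeff_C]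
    rw [← h1.2, hjb, h2.2]
    simp only [← degree_eq_sum', h3]
    rfl
  -- the exponent of the last variable is constant
  have hlast : ∀ t ∈ (Q1 d e F).support, t.degree = bb F → ∀ t' ∈ (Q1 d e F).support,
      t'.degree = bb F → t (Fin.last m) = t' (Fin.last m) := by
    intro t ht hd t' ht' hd'
    have h1 := (wt_Q1 ht).trans (wt_Q1 ht').symm
    rw [wt_eq, wt_eq] at h1
    rw [degree_eq] at hd hd'
    have h2 : ot t = bb F - t (Fin.last m) := by omega
    have h3 : ot t' = bb F - t' (Fin.last m) := by omega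
    have h4 : t (Fin.last m) ≤ bb F := by omega
    have h5 : t' (Fin.last m) ≤ bb F := by omega
    rw [h2, h3] at h1
    obtain ⟨x, hx⟩ := Nat.exists_eq_add_of_le h4
    obtain ⟨x', hx'⟩ := Nat.exists_eq_add_of_le h5
    have h6 : bb F - t (Fin.last m) = x := by omega
    have h7 : bb F - t' (Fin.last m) = x' := by omega
    rw [h6, h7] at h1
    obtain ⟨q, hq⟩ := Nat.exists_eq_add_of_lt hed
    rw [hq] at h1
    have h8 : (q + 1) * t (Fin.last m) = (q + 1) * t' (Fin.last m) := by nlinarith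
    exact Nat.eq_of_mul_eq_mul_left (Nat.succ_pos q) h8
  -- it is zero
  have hzero : ∀ t ∈ (Q1 d e F).support, t.degree = bb F → t (Fin.last m) = 0 := by
    intro t ht hd
    by_contra hcon
    refine hP0 (MvPolynomial.funext fun y => ?_)
    have hd0 : (d : K) * ca d Φ ≠ 0 := by
      refine mul_ne_zero ?_ hΦ.top
      exact_mod_cast (show d ≠ 0 by omega)
    rw [map_zero, ← hE y (-(y (Fin.last m)) / ((d : K) * ca d Φ)), hPQ]
    refine Finset.sum_eq_zero fun t' ht' => ?_
    rw [Finset.mem_filter] at ht'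
    rw [Finset.prod_eq_zero (Finset.mem_univ (Fin.last m)), mul_zero]
    have h1 : t' (Fin.last m) ≠ 0 := by
      rw [hlast t' ht'.1 ht'.2 t ht hd]
      exact hcon
    rw [wd, if_pos rfl, z0, Fin.snoc_last, div_mul_cancel₀ _ hd0, add_neg_cancel, zero_pow h1]
  -- comparison with the lowest form of `F`
  have htb : ∀ y : Fin (m + 1) → K, eval y P = tb F (fun k => y k.castSucc) := by
    intro y
    rw [hPQ, tb]
    have hex : ∃ t ∈ (Q1 d e F).support, t.degree = bb F := by
      by_contra hcon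
      push Not at hcon
      refine hP0 (MvPolynomial.funext fun y => ?_)
      rw [hPQ, map_zero]
      refine Finset.sum_eq_zero fun t ht => ?_
      rw [Finset.mem_filter] at ht
      exact absurd ht.2 (hcon t ht.1)
    obtain ⟨t₁, ht₁, hd₁⟩ := hex
    have hbD := bb_le_totalDegree hF
    have hW : mw d e F = bb F * e + (F.totalDegree - bb F) * d := by
      have h1 := (mem_Q1.1 ht₁).2
      have h2 := hzero t₁ ht₁ hd₁
      rw [degree_eq, h2, add_zero] at hd₁
      rw [wt_add, wt_single, wt_eq, h2, hd₁] at h1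
      omega
    refine Finset.sum_nbij
      (fun t => Finsupp.single (Fin.last m) (F.totalDegree - bb F) + t) ?_ ?_ ?_ ?_
    · intro t ht
      rw [Finset.mem_filter] at ht
      have h2 := hzero t ht.1 ht.2
      rw [Finset.mem_filter]
      refine ⟨(mem_Q1.1 ht.1).1, ?_, ?_⟩
      · rw [map_add, Finsupp.degree_single, ht.2]
        omega
      · have h3 := ht.2
        rw [degree_eq, h2, add_zero] at h3
        rw [ot_add, ot_single_last, zero_add, h3]
    · intro t _ t' _ h
      exact add_left_cancel h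
    · intro s hs
      rw [Finset.mem_coe, Finset.mem_filter] at hs
      have h2 : s (Fin.last m) = F.totalDegree - bb F := by
        have h3 := degree_eq s
        rw [hs.2.1, hs.2.2] at h3
        omega
      have h3 := single_add_tsub (s := s) (k := F.totalDegree - bb F) h2.ge
      refine ⟨s - Finsupp.single (Fin.last m) (F.totalDegree - bb F), ?_, h3⟩
      rw [Finset.mem_coe, Finset.mem_filter, mem_Q1, h3]
      refine ⟨⟨hs.1, ?_⟩, ?_⟩
      · rw [wt_eq, hs.2.2, h2, hW]
      · have h4 := congrArg Finsupp.degree h3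
        rw [map_add, Finsupp.degree_single, hs.2.1] at h4
        omega
    · intro t ht
      rw [Finset.mem_filter] at ht
      have h2 := hzero t ht.1 ht.2
      have h3 : coeff t (Q1 d e F) =
          coeff (Finsupp.single (Fin.last m) (F.totalDegree - bb F) + t) F := by
        rw [coeff_Q1, if_pos (mem_Q1.1 ht.1).2]
      rw [h3, Fin.prod_univ_castSucc, h2, pow_zero, mul_one]
      congr 1
      refine Finset.prod_congr rfl fun k _ => ?_
      rw [Finsupp.add_apply, Finsupp.single_eq_of_ne (Fin.castSucc_ne_last k), zero_add]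
  refine ⟨fun v t => ?_, ca d Φ ^ (F.totalDegree - bb F), pow_ne_zero _ hΦ.top, fun v => ?_⟩
  · have he0 : (e : K) ≠ 0 := by exact_mod_cast (show e ≠ 0 by omega)
    have h1 := hE (Fin.snoc v 0) (t / e)
    rw [htb, htb] at h1
    have h2 : (fun k : Fin m => (Fin.snoc v 0 : Fin (m + 1) → K) k.castSucc) = v := by
      funext k
      rw [Fin.snoc_castSucc]
    rw [h2] at h1
    rw [← h1]
    congr 1
    funext k
    rw [Fin.snoc_castSucc, wd, if_neg (Fin.castSucc_ne_last k), z0, Fin.snoc_castSucc,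
      ← mul_assoc, div_mul_cancel₀ _ he0]
  · have h1 := hcoef v
    rw [hjb, ← heq, ← hGW, tb_eq, htb, heq] at h1
    rw [h1]
    congr 2
    funext k
    rw [uu, Fin.snoc_castSucc]

end Pool.Agent.Helper26.GT
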