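import Pool.Agent.Helper26.GT.Line

/-!
# The step
-/

set_option autoImplicit false

namespace Pool.Agent.Helper26.GT

open MvPolynomial Pool.Agent.Helper26.RR

variable {K : Type*} [Field K] {m : ℕ}

/-- the weight of an exponent -/
def wt (d e : ℕ) {m : ℕ} (s : Fin (m + 1) →₀ ℕ) : ℕ := ∑ i, s i * wd d e i

theorem wt_eq (d e : ℕ) (s : Fin (m + 1) →₀ ℕ) : wt d e s = ot s * e + s (Fin.last m) * d := by
  unfold wt
  rw [Fin.sum_univ_castSucc]
  congr 1
  · unfold ot
    rw [Finset.sum_mul]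
    exact Finset.sum_congr rfl fun i _ => by rw [wd, if_neg (Fin.castSucc_ne_last i)]
  · rw [wd, if_pos rfl]

theorem wt_add (d e : ℕ) (s t : Fin (m + 1) →₀ ℕ) : wt d e (s + t) = wt d e s + wt d e t := by
  unfold wt
  rw [← Finset.sum_add_distrib]
  exact Finset.sum_congr rfl fun i _ => by rw [Finsupp.add_apply, add_mul]

/-- the largest weight -/
noncomputable def mw (d e : ℕ) (F : MvPolynomial (Fin (m + 1)) K) : ℕ := F.support.sup (wt d e)

theorem le_mw (d e : ℕ) {F : MvPolynomial (Fin (m + 1)) K} {s : Fin (m + 1) →₀ ℕ}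
    (hs : s ∈ F.support) : wt d e s ≤ mw d e F := Finset.le_sup hs

theorem exists_mw (d e : ℕ) {F : MvPolynomial (Fin (m + 1)) K} (hF : F ≠ 0) :
    ∃ s ∈ F.support, wt d e s = mw d e F := by
  obtain ⟨s, hs, h⟩ := Finset.exists_mem_eq_sup F.support (support_nonempty.2 hF) (wt d e)
  exact ⟨s, hs, h.symm⟩

theorem bb_le_totalDegree {F : MvPolynomial (Fin (m + 1)) K} (hF : F ≠ 0) :
    bb F ≤ F.totalDegree := by
  obtain ⟨s, -, hd, hb⟩ := bb_spec hF
  have := degree_eq s
  omega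

theorem sub_le_last {d e : ℕ} (hed : e < d) {F : MvPolynomial (Fin (m + 1)) K}
    {s : Fin (m + 1) →₀ ℕ} (hs : s ∈ F.support) (hw : wt d e s = mw d e F) :
    F.totalDegree - bb F ≤ s (Fin.last m) := by
  have hF : F ≠ 0 := by
    rintro rfl
    simp at hs
  obtain ⟨s', hs', hd', hb'⟩ := bb_spec hF
  have h1 := le_mw d e hs'
  rw [← hw, wt_eq, wt_eq] at h1
  have h2 := deg_le hs
  rw [degree_eq] at h2
  have h3 := degree_eq s'
  rw [hd'] at h3
  rw [hb'] at h1 h3
  by_contra hcon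
  push Not at hcon
  have h4 : F.totalDegree - bb F = s' (Fin.last m) := by omega
  rw [h4] at hcon
  -- ot s ≤ D - s_l, D = b + s'_l
  have h5 : ot s * e ≤ (bb F + s' (Fin.last m) - s (Fin.last m)) * e :=
    Nat.mul_le_mul_right _ (by omega)
  obtain ⟨q, hq⟩ := Nat.exists_eq_add_of_lt hcon
  rw [hq] at h1 h5
  have h6 : bb F + (s (Fin.last m) + q + 1) - s (Fin.last m) = bb F + (q + 1) := by omega
  rw [h6] at h5
  nlinarith [Nat.mul_lt_mul_of_pos_left hed (Nat.succ_pos q)]

/-- the part of the largest weight divided by a power of the last variable -/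
noncomputable def Q1 (d e : ℕ) (F : MvPolynomial (Fin (m + 1)) K) :
    MvPolynomial (Fin (m + 1)) K :=
  (∑ s ∈ F.support with wt d e s = mw d e F, monomial s (coeff s F)).divMonomial
    (Finsupp.single (Fin.last m) (F.totalDegree - bb F))

theorem coeff_Q1 (d e : ℕ) (F : MvPolynomial (Fin (m + 1)) K) (t : Fin (m + 1) →₀ ℕ) :
    coeff t (Q1 d e F) =
      if wt d e (Finsupp.single (Fin.last m) (F.totalDegree - bb F) + t) = mw d e F then
        coeff (Finsupp.single (Fin.last m) (F.totalDegree - bb F) + t) F else 0 := by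
  classical
  rw [Q1, coeff_divMonomial, coeff_sum]
  simp only [coeff_monomial]
  rw [Finset.sum_ite_eq']
  simp only [Finset.mem_filter]
  by_cases h1 : Finsupp.single (Fin.last m) (F.totalDegree - bb F) + t ∈ F.support
  · by_cases h2 : wt d e (Finsupp.single (Fin.last m) (F.totalDegree - bb F) + t) = mw d e F
    · rw [if_pos ⟨h1, h2⟩, if_pos h2]
    · rw [if_neg fun h => h2 h.2, if_neg h2]
  · rw [if_neg fun h => h1 h.1, notMem_support_iff.1 h1, ite_self]

theorem mem_Q1 {d e : ℕ} {F : MvPolynomial (Fin (m + 1)) K} {t : Fin (m + 1) →₀ ℕ} :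
    t ∈ (Q1 d e F).support ↔
      Finsupp.single (Fin.last m) (F.totalDegree - bb F) + t ∈ F.support ∧
      wt d e (Finsupp.single (Fin.last m) (F.totalDegree - bb F) + t) = mw d e F := by
  rw [mem_support_iff, coeff_Q1]
  split_ifs with h
  · rw [mem_support_iff]
    exact ⟨fun h1 => ⟨h1, h⟩, fun h1 => h1.1⟩
  · exact ⟨fun h1 => absurd rfl h1, fun h1 => absurd h1.2 h⟩

theorem single_add_tsub {s : Fin (m + 1) →₀ ℕ} {k : ℕ} (h : k ≤ s (Fin.last m)) :
    Finsupp.single (Fin.last m) k + (s - Finsupp.single (Fin.last m) k) = s := by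
  rw [add_tsub_cancel_of_le]
  exact Finsupp.single_le_iff.2 h

theorem Q1_ne_zero {d e : ℕ} (hed : e < d) {F : MvPolynomial (Fin (m + 1)) K} (hF : F ≠ 0) :
    Q1 d e F ≠ 0 := by
  obtain ⟨s, hs, hw⟩ := exists_mw d e hF
  have h1 := single_add_tsub (sub_le_last hed hs hw)
  have h2 : s - Finsupp.single (Fin.last m) (F.totalDegree - bb F) ∈ (Q1 d e F).support := by
    rw [mem_Q1, h1]
    exact ⟨hs, hw⟩
  intro h3
  rw [h3] at h2
  simp at h2

theorem degree_Q1 {d e : ℕ} {F : MvPolynomial (Fin (m + 1)) K} {t : Fin (m + 1) →₀ ℕ}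
    (ht : t ∈ (Q1 d e F).support) : t.degree ≤ bb F := by
  rw [mem_Q1] at ht
  have h1 := deg_le ht.1
  rw [map_add, Finsupp.degree_single] at h1
  have h2 : F ≠ 0 := by
    rintro rfl
    simp at ht
  have := bb_le_totalDegree h2
  omega

theorem wt_single (d e k : ℕ) : wt d e (Finsupp.single (Fin.last m) k) = k * d := by
  rw [wt_eq, ot_single_last, zero_mul, zero_add, Finsupp.single_eq_same]

theorem wt_Q1 {d e : ℕ} {F : MvPolynomial (Fin (m + 1)) K} {t : Fin (m + 1) →₀ ℕ}
    (ht : t ∈ (Q1 d e F).support) :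
    wt d e t = mw d e F - (F.totalDegree - bb F) * d := by
  rw [mem_Q1, wt_add, wt_single] at ht
  omega

theorem degree_eq_sum' (t : Fin (m + 1) →₀ ℕ) : t.degree = ∑ i, t i * 1 := by
  rw [Finsupp.degree_eq_sum]
  simp

/-- The coefficient of the top degree of a composition. -/
theorem comp_top {d e : ℕ} (hed : e < d) {Φ : Fin (m + 1) → MvPolynomial (Fin (m + 1)) K}
    (hΦ : Dom d e Φ) (F : MvPolynomial (Fin (m + 1)) K) (v : Fin m → K) :
    (La v (bind₁ Φ F)).coeff (mw d e F) =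
      ((La v (Φ (Fin.last m))).coeff d) ^ (F.totalDegree - bb F) *
        aeval (fun i => (La v (Φ i)).coeff (wd d e i)) (Q1 d e F) := by
  classical
  have h0 : La v (bind₁ Φ F) = aeval (fun i => La v (Φ i)) F := by
    rw [La, aeval_bind₁]
    rfl
  have h1 := aeval_top F (wd d e) (mw d e F) (fun s hs => le_mw d e hs)
    (fun i => La v (Φ i)) (fun i => (La_top v (hΦ.deg i)).1)
  rw [h0, h1.2, aeval_def, eval₂_eq', Finset.mul_sum]
  symm
  refine Finset.sum_nbij (fun t => Finsupp.single (Fin.last m) (F.totalDegree - bb F) + t)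
    ?_ ?_ ?_ ?_
  · intro t ht
    rw [mem_Q1] at ht
    rw [Finset.mem_filter]
    exact ht
  · intro t _ t' _ h
    exact add_left_cancel h
  · intro s hs
    rw [Finset.mem_coe, Finset.mem_filter] at hs
    have h2 := single_add_tsub (sub_le_last hed hs.1 hs.2)
    refine ⟨s - Finsupp.single (Fin.last m) (F.totalDegree - bb F), ?_, h2⟩
    rw [Finset.mem_coe, mem_Q1, h2]
    exact hs
  · intro t ht
    have h2 : coeff t (Q1 d e F) =
        coeff (Finsupp.single (Fin.last m) (F.totalDegree - bb F) + t) F := by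
      rw [mem_Q1] at ht
      rw [coeff_Q1, if_pos ht.2]
    rw [h2]
    have h3 : ∏ i, (La v (Φ i)).coeff (wd d e i) ^
        (Finsupp.single (Fin.last m) (F.totalDegree - bb F) + t : Fin (m + 1) →₀ ℕ) i =
        ((La v (Φ (Fin.last m))).coeff d) ^ (F.totalDegree - bb F) *
          ∏ i, (La v (Φ i)).coeff (wd d e i) ^ t i := by
      simp only [Finsupp.add_apply, pow_add, Finset.prod_mul_distrib]
      congr 1
      rw [Finset.prod_eq_single (Fin.last m)]
      · rw [Finsupp.single_eq_same, wd, if_pos rfl]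
      · intro i _ hi
        rw [Finsupp.single_eq_of_ne hi, pow_zero]
      · intro h
        exact absurd (Finset.mem_univ _) h
    rw [h3]
    ring

/-- the centre -/
noncomputable def z0 (d e : ℕ) (Φ : Fin (m + 1) → MvPolynomial (Fin (m + 1)) K) :
    Fin (m + 1) → K := Fin.snoc (cc e Φ) (ca d Φ)

/-- the linear part -/
noncomputable def uu (d e : ℕ) (Φ : Fin (m + 1) → MvPolynomial (Fin (m + 1)) K) (v : Fin m → K) :
    Fin (m + 1) → K := Fin.snoc ((cA e Φ).mulVec v) (∑ k, cg d Φ k * v k)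

theorem coeff_zero_eq {d e : ℕ} {Φ : Fin (m + 1) → MvPolynomial (Fin (m + 1)) K}
    (hΦ : Dom d e Φ) (v : Fin m → K) (i : Fin (m + 1)) :
    ((La v (Φ i)).coeff (wd d e i)).coeff 0 = z0 d e Φ i := by
  rw [La_zero v (hΦ.deg i)]
  refine Fin.lastCases ?_ (fun j => ?_) i
  · rw [z0, Fin.snoc_last, wd, if_pos rfl, ca]
  · rw [z0, Fin.snoc_castSucc, wd, if_neg (Fin.castSucc_ne_last j), cc]

theorem coeff_one_eq {d e : ℕ} (he : 1 ≤ e) (hed : e < d)
    {Φ : Fin (m + 1) → MvPolynomial (Fin (m + 1)) K}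
    (hΦ : Dom d e Φ) (v : Fin m → K) (i : Fin (m + 1)) :
    ((La v (Φ i)).coeff (wd d e i)).coeff 1 = uu d e Φ v i := by
  have h1 : 1 ≤ wd d e i := by
    unfold wd
    split_ifs <;> omega
  rw [La_one v h1 (hΦ.deg i)]
  refine Fin.lastCases ?_ (fun j => ?_) i
  · rw [uu, Fin.snoc_last, wd, if_pos rfl]
    rfl
  · rw [uu, Fin.snoc_castSucc, wd, if_neg (Fin.castSucc_ne_last j)]
    rfl

end Pool.Agent.Helper26.GT
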